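import Mathlib

/-!
# Multi-way isoperimetric gaps: a realizer that is a system of imprimitivity always exists

If `Γ` is a finite vertex-transitive graph with `h_{n+1} > 2 (n+1) h_n`, `n ≥ 2`, then some
realizer of `h_n` is a system of imprimitivity of size `n` for the automorphism group.

Proof: every translate of a realizer is matched with it up to a set of at most `(h_n/h_{n+1}) |V|`
vertices, this gives an action of the automorphism group on the classes, a majority vote gives an
equivariant partition into `n` blocks, and a direct comparison of boundaries shows that the block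
partition has cost at most `h_n`.
-/

set_option autoImplicit false
set_option linter.unusedSectionVars false

namespace Pool.Agent.Results.MP_8474a0_co.BlockRealizer

open scoped BigOperators

/-- The boundary of `A`: the edges with one endpoint in `A` and the other outside of `A`. -/
def boundary {V : Type} (Γ : SimpleGraph V) (A : Set V) : Set (Sym2 V) :=
  {e | e ∈ Γ.edgeSet ∧ ∃ v ∈ A, ∃ w ∉ A, e = s(v, w)}

/-- The largest value of `|∂ A_i| / |A_i|` over the classes `A_i = f ⁻¹ {i}`. -/
noncomputable def cost {V : Type} (Γ : SimpleGraph V) {n : ℕ} (f : V → Fin n) : ℝ :=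
  ⨆ i, ((boundary Γ (f ⁻¹' {i})).ncard : ℝ) / ((f ⁻¹' {i}).ncard : ℝ)

/-- The `n`-way isoperimetric constant: the minimum cost of a partition into `n` non-empty
classes (partitions are given by surjections onto `Fin n`). -/
noncomputable def isoper {V : Type} (Γ : SimpleGraph V) (n : ℕ) : ℝ :=
  ⨅ f : {f : V → Fin n // Function.Surjective f}, cost Γ f.1

section core

variable {V : Type} [Fintype V] (Γ : SimpleGraph V)

open Classical in
noncomputable def adj (v w : V) : ℝ := if Γ.Adj v w then 1 else 0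

theorem adj_nonneg (v w : V) : 0 ≤ adj Γ v w := by
  unfold adj; split_ifs <;> norm_num

theorem adj_symm (v w : V) : adj Γ v w = adj Γ w v := by
  unfold adj
  by_cases h : Γ.Adj v w
  · rw [if_pos h, if_pos h.symm]
  · rw [if_neg h, if_neg fun h' => h h'.symm]

noncomputable def E (φ : V → V → ℝ) : ℝ := ∑ v, ∑ w, adj Γ v w * φ v w

theorem E_mono {φ ψ : V → V → ℝ} (h : ∀ v w, φ v w ≤ ψ v w) : E Γ φ ≤ E Γ ψ :=
  Finset.sum_le_sum fun v _ => Finset.sum_le_sum fun w _ =>
    mul_le_mul_of_nonneg_left (h v w) (adj_nonneg Γ v w)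

theorem E_congr {φ ψ : V → V → ℝ} (h : ∀ v w, φ v w = ψ v w) : E Γ φ = E Γ ψ := by
  have : φ = ψ := by ext v w; exact h v w
  rw [this]

theorem E_nonneg {φ : V → V → ℝ} (h : ∀ v w, 0 ≤ φ v w) : 0 ≤ E Γ φ :=
  Finset.sum_nonneg fun v _ => Finset.sum_nonneg fun w _ => mul_nonneg (adj_nonneg Γ v w) (h v w)

theorem E_add (φ ψ : V → V → ℝ) : E Γ (fun v w => φ v w + ψ v w) = E Γ φ + E Γ ψ := by
  simp only [E, mul_add, Finset.sum_add_distrib]

theorem E_sub (φ ψ : V → V → ℝ) : E Γ (fun v w => φ v w - ψ v w) = E Γ φ - E Γ ψ := by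
  simp only [E, mul_sub, Finset.sum_sub_distrib]

theorem E_sum {ι : Type} [Fintype ι] (φ : ι → V → V → ℝ) :
    E Γ (fun v w => ∑ i, φ i v w) = ∑ i, E Γ (φ i) := by
  simp only [E, Finset.mul_sum]
  calc ∑ v, ∑ w, ∑ i, adj Γ v w * φ i v w = ∑ v, ∑ i, ∑ w, adj Γ v w * φ i v w :=
        Finset.sum_congr rfl fun v _ => Finset.sum_comm
    _ = _ := Finset.sum_comm

theorem E_symm (φ : V → V → ℝ) : E Γ (fun v w => φ w v) = E Γ φ := by
  unfold E
  rw [Finset.sum_comm]
  exact Finset.sum_congr rfl fun v _ => Finset.sum_congr rfl fun w _ => by rw [adj_symm]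

noncomputable def bdr (χ : V → ℝ) : ℝ := E Γ fun v w => χ v * (1 - χ w)

noncomputable def sz (χ : V → ℝ) : ℝ := ∑ v, χ v

/-- the indicator of a class -/
noncomputable def ind {n : ℕ} (f : V → Fin n) (i : Fin n) (v : V) : ℝ := if f v = i then 1 else 0

def IsInd (χ : V → ℝ) : Prop := ∀ v, χ v = 0 ∨ χ v = 1

theorem ind_isInd {n : ℕ} (f : V → Fin n) (i : Fin n) : IsInd (ind f i) := fun v => by
  unfold ind; split_ifs
  · exact Or.inr rfl
  · exact Or.inl rfl

theorem isInd_mul {a b : V → ℝ} (ha : IsInd a) (hb : IsInd b) : IsInd (fun v => a v * b v) :=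
  fun v => by
    rcases ha v with h1 | h1 <;> rcases hb v with h2 | h2 <;> simp [h1, h2]

theorem isInd_nonneg {a : V → ℝ} (ha : IsInd a) (v : V) : 0 ≤ a v := by
  rcases ha v with h | h <;> rw [h]; norm_num

theorem sz_mono {a b : V → ℝ} (h : ∀ v, a v ≤ b v) : sz a ≤ sz b :=
  Finset.sum_le_sum fun v _ => h v

theorem sz_nonneg {a : V → ℝ} (h : ∀ v, 0 ≤ a v) : 0 ≤ sz a := Finset.sum_nonneg fun v _ => h v

theorem bdr_nonneg {a : V → ℝ} (ha : IsInd a) : 0 ≤ bdr Γ a :=
  E_nonneg Γ fun v w => by rcases ha v with h1 | h1 <;> rcases ha w with h2 | h2 <;> simp [h1, h2]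

theorem bdr_symm (a : V → ℝ) : bdr Γ a = E Γ fun v w => a w * (1 - a v) :=
  (E_symm Γ fun v w => a v * (1 - a w)).symm

theorem bdr_mul {a b : V → ℝ} (ha : IsInd a) (hb : IsInd b) :
    bdr Γ (fun v => a v * b v) ≤ bdr Γ a + bdr Γ b := by
  unfold bdr
  rw [← E_add]
  refine E_mono Γ fun v w => ?_
  rcases ha v with h1 | h1 <;> rcases ha w with h2 | h2 <;> rcases hb v with h3 | h3 <;>
    rcases hb w with h4 | h4 <;> simp [h1, h2, h3, h4]

theorem bdr_diff {a b : V → ℝ} (ha : IsInd a) (hb : IsInd b) :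
    bdr Γ (fun v => a v * (1 - b v)) ≤ bdr Γ a + bdr Γ b := by
  rw [bdr_symm Γ b]
  unfold bdr
  rw [← E_add]
  refine E_mono Γ fun v w => ?_
  rcases ha v with h1 | h1 <;> rcases ha w with h2 | h2 <;> rcases hb v with h3 | h3 <;>
    rcases hb w with h4 | h4 <;> simp [h1, h2, h3, h4]

theorem two_bdr (a : V → ℝ) :
    2 * bdr Γ a = E Γ fun v w => a v * (1 - a w) + a w * (1 - a v) := by
  rw [E_add, ← bdr_symm]; unfold bdr; ring

theorem bdr_posi {a b : V → ℝ} (ha : IsInd a) (hb : IsInd b) :
    bdr Γ (fun v => a v * (1 - b v)) + bdr Γ (fun v => b v * (1 - a v)) ≤ bdr Γ a + bdr Γ b := by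
  have : 2 * bdr Γ (fun v => a v * (1 - b v)) + 2 * bdr Γ (fun v => b v * (1 - a v))
      ≤ 2 * bdr Γ a + 2 * bdr Γ b := by
    rw [two_bdr, two_bdr, two_bdr, two_bdr, ← E_add, ← E_add]
    refine E_mono Γ fun v w => ?_
    rcases ha v with h1 | h1 <;> rcases ha w with h2 | h2 <;> rcases hb v with h3 | h3 <;>
      rcases hb w with h4 | h4 <;> norm_num [h1, h2, h3, h4]
  linarith

/-- every class is non-empty with small boundary -/
def Good {n : ℕ} (h : ℝ) (f : V → Fin n) : Prop :=
  ∀ i, 0 < sz (ind f i) ∧ bdr Γ (ind f i) ≤ h * sz (ind f i)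

/-- The standing assumptions. -/
structure Ctx (n : ℕ) (h H : ℝ) : Prop where
  hn : 2 ≤ n
  h0 : 0 ≤ h
  hH : 2 * ((n : ℝ) + 1) * h < H
  F1 : ∀ f : V → Fin n, Good Γ h f → ∀ i, ∀ χ : V → ℝ, IsInd χ →
    H * sz (fun v => ind f i v * χ v) ≤ bdr Γ (fun v => ind f i v * χ v) ∨
    H * sz (fun v => ind f i v * (1 - χ v)) ≤ bdr Γ (fun v => ind f i v * (1 - χ v))

variable {Γ}

theorem Ctx.six {n : ℕ} {h H : ℝ} (c : Ctx Γ n h H) : 6 * h < H := by
  have h1 : (2 : ℝ) ≤ n := by exact_mod_cast c.hn
  have := c.hH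
  have := c.h0
  nlinarith

theorem Ctx.Hpos {n : ℕ} {h H : ℝ} (c : Ctx Γ n h H) : 0 < H := by
  have := c.six
  have := c.h0
  linarith

theorem sum_ind {n : ℕ} (f : V → Fin n) : ∑ i, sz (ind f i) = Fintype.card V := by
  unfold sz ind
  rw [Finset.sum_comm]
  simp

theorem sum_bdr {n : ℕ} (f : V → Fin n) :
    ∑ i, bdr Γ (ind f i) = E Γ fun v w => if f v = f w then 0 else 1 := by
  unfold bdr
  rw [← E_sum]
  refine E_congr Γ fun v w => ?_
  unfold ind
  simp only [ite_mul, one_mul, zero_mul, Finset.sum_ite_eq, Finset.mem_univ, if_true]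
  by_cases h : f v = f w
  · rw [if_pos h, if_pos h.symm]; ring
  · rw [if_neg h, if_neg (Ne.symm h)]; ring

theorem sz_split (a b : V → ℝ) :
    sz a = sz (fun v => a v * b v) + sz (fun v => a v * (1 - b v)) := by
  unfold sz
  rw [← Finset.sum_add_distrib]
  exact Finset.sum_congr rfl fun v _ => by ring

/-- Matched classes differ in few vertices. -/
theorem matched_ineq {n : ℕ} {h H : ℝ} (c : Ctx Γ n h H) {f f' : V → Fin n} (hf : Good Γ h f)
    (hf' : Good Γ h f') {i j : Fin n}
    (h1 : sz (ind f i) < 2 * sz (fun v => ind f i v * ind f' j v))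
    (h2 : sz (ind f' j) < 2 * sz (fun v => ind f i v * ind f' j v)) :
    H * sz (fun v => ind f i v * (1 - ind f' j v)) ≤ bdr Γ (fun v => ind f i v * (1 - ind f' j v)) ∧
    H * sz (fun v => ind f i v * (1 - ind f' j v)) ≤ h * (sz (ind f i) + sz (ind f' j)) := by
  have h3 := bdr_mul Γ (ind_isInd f i) (ind_isInd f' j)
  have h4 := bdr_diff Γ (ind_isInd f i) (ind_isInd f' j)
  have h5 := (hf i).2
  have h6 := (hf' j).2
  have h7 := c.six
  have h8 := c.h0
  have h9 : H * sz (fun v => ind f i v * (1 - ind f' j v))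
      ≤ bdr Γ (fun v => ind f i v * (1 - ind f' j v)) := by
    rcases c.F1 f hf i (ind f' j) (ind_isInd f' j) with h10 | h10
    · exfalso
      have h11 := (hf i).1
      nlinarith
    · exact h10
  exact ⟨h9, by linarith⟩

theorem sum_sz_mul {n : ℕ} (a : V → ℝ) (f' : V → Fin n) :
    ∑ j, sz (fun v => a v * ind f' j v) = sz a := by
  unfold sz ind
  rw [Finset.sum_comm]
  simp

theorem sum_bdr_mul {n : ℕ} {a : V → ℝ} (ha : IsInd a) (f' : V → Fin n) :
    ∑ j, bdr Γ (fun v => a v * ind f' j v)
      ≤ bdr Γ a + E Γ (fun v w => a v * if f' v = f' w then 0 else 1) := by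
  unfold bdr
  rw [← E_sum, ← E_add]
  refine E_mono Γ fun v w => ?_
  have : ∑ j, a v * ind f' j v * (1 - a w * ind f' j w)
      = a v * (1 - a w * if f' v = f' w then 1 else 0) := by
    unfold ind
    simp only [mul_ite, mul_one, mul_zero, ite_mul, zero_mul, Finset.sum_ite_eq, Finset.mem_univ,
      if_true]
    by_cases h : f' v = f' w
    · rw [if_pos h, if_pos h.symm]
    · rw [if_neg h, if_neg (Ne.symm h)]
  rw [this]
  rcases ha v with h1 | h1 <;> rcases ha w with h2 | h2 <;> by_cases h : f' v = f' w <;>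
    simp [h1, h2, h]

theorem bdr_diff_half {n : ℕ} {a : V → ℝ} (ha : IsInd a) (f' : V → Fin n) (j : Fin n) :
    2 * bdr Γ (fun v => a v * (1 - ind f' j v))
      ≤ 2 * bdr Γ a + E Γ (fun v w => a v * if f' v = f' w then 0 else 1) := by
  rw [two_bdr, two_bdr, ← E_add]
  refine E_mono Γ fun v w => ?_
  unfold ind
  by_cases h : f' v = f' w
  · rw [h]
    rcases ha v with h1 | h1 <;> rcases ha w with h2 | h2 <;> by_cases h3 : f' w = j <;>
      norm_num [h1, h2, h3]
  · rw [if_neg h]
    rcases ha v with h1 | h1 <;> rcases ha w with h2 | h2 <;> by_cases h3 : f' v = j <;>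
      by_cases h4 : f' w = j <;> norm_num [h1, h2, h3, h4]

/-- A class of `f` is matched with a class of `f'`, or the partition `f'` cuts many edges at it. -/
theorem matched_or {n : ℕ} {h H : ℝ} (c : Ctx Γ n h H) {f f' : V → Fin n} (hf : Good Γ h f)
    (hf' : Good Γ h f') (i : Fin n) :
    (∃ j, sz (ind f i) < 2 * sz (fun v => ind f i v * ind f' j v) ∧
      sz (ind f' j) < 2 * sz (fun v => ind f i v * ind f' j v)) ∨
    (H - 2 * h) * sz (ind f i)
      ≤ E Γ (fun v w => ind f i v * if f' v = f' w then 0 else 1) := by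
  by_contra hcon
  push Not at hcon
  obtain ⟨hm, hd⟩ := hcon
  have hA := hf i
  have h6 := c.six
  have h0 := c.h0
  have key : ∀ j, H * sz (fun v => ind f i v * ind f' j v)
      ≤ bdr Γ (fun v => ind f i v * ind f' j v) := by
    intro j
    rcases c.F1 f hf i (ind f' j) (ind_isInd f' j) with h1 | h1
    · exact h1
    · by_cases hbig : sz (ind f i) < 2 * sz (fun v => ind f i v * ind f' j v)
      · have h2 := hm j hbig
        have hcomm : (fun v => ind f' j v * ind f i v) = fun v => ind f i v * ind f' j v := by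
          ext v; ring
        rcases c.F1 f' hf' j (ind f i) (ind_isInd f i) with h3 | h3
        · rw [hcomm] at h3; exact h3
        · exfalso
          have h4 := bdr_diff Γ (ind_isInd f' j) (ind_isInd f i)
          have h5 := sz_split (ind f' j) (ind f i)
          rw [hcomm] at h5
          have h7 := (hf' j).1
          have h8 := (hf' j).2
          nlinarith
      · exfalso
        have h4 := bdr_diff_half (Γ := Γ) (ind_isInd f i) f' j
        have h5 := sz_split (ind f i) (ind f' j)
        nlinarith [hA.1, hA.2]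
  have h1 := Finset.sum_le_sum fun j (_ : j ∈ Finset.univ) => key j
  rw [← Finset.mul_sum, sum_sz_mul] at h1
  have h2 := sum_bdr_mul (Γ := Γ) (ind_isInd f i) f'
  nlinarith [hA.1, hA.2]

section action

variable {G : Type} [Group G] [Fintype G] [MulAction G V]

theorem adj_smul (hΓ : ∀ (g : G) (v w : V), Γ.Adj (g • v) (g • w) ↔ Γ.Adj v w) (g : G) (v w : V) :
    adj Γ (g • v) (g • w) = adj Γ v w := by
  unfold adj
  by_cases h : Γ.Adj v w
  · rw [if_pos h, if_pos ((hΓ g v w).2 h)]
  · rw [if_neg h, if_neg fun h' => h ((hΓ g v w).1 h')]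

theorem sum_smul (g : G) (φ : V → ℝ) : ∑ v, φ (g • v) = ∑ v, φ v :=
  Equiv.sum_comp (MulAction.toPerm g) φ

theorem E_smul (hΓ : ∀ (g : G) (v w : V), Γ.Adj (g • v) (g • w) ↔ Γ.Adj v w) (g : G)
    (φ : V → V → ℝ) : E Γ (fun v w => φ (g • v) (g • w)) = E Γ φ := by
  unfold E
  rw [← sum_smul g fun v => ∑ w, adj Γ v w * φ v w]
  refine Finset.sum_congr rfl fun v _ => ?_
  rw [← sum_smul g fun w => adj Γ (g • v) w * φ (g • v) w]
  refine Finset.sum_congr rfl fun w _ => ?_
  rw [adj_smul hΓ]

theorem good_tr (hΓ : ∀ (g : G) (v w : V), Γ.Adj (g • v) (g • w) ↔ Γ.Adj v w) {n : ℕ} {h : ℝ}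
    {f : V → Fin n} (hf : Good Γ h f) (g : G) : Good Γ h (fun v => f (g⁻¹ • v)) := by
  intro i
  have h1 : sz (ind (fun v => f (g⁻¹ • v)) i) = sz (ind f i) := sum_smul g⁻¹ (ind f i)
  have h2 : bdr Γ (ind (fun v => f (g⁻¹ • v)) i) = bdr Γ (ind f i) :=
    E_smul hΓ g⁻¹ (fun v w => ind f i v * (1 - ind f i w))
  rw [h1, h2]
  exact hf i

/-- Averaging over a transitive group. -/
theorem avg (ht : ∀ v w : V, ∃ g : G, g • v = w) (φ : V → ℝ) (v : V) :
    (Fintype.card V : ℝ) * ∑ g : G, φ (g⁻¹ • v) = Fintype.card G * ∑ u, φ u := by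
  have h1 : ∀ w, ∑ g : G, φ (g⁻¹ • w) = ∑ g : G, φ (g⁻¹ • v) := by
    intro w
    obtain ⟨k, rfl⟩ := ht v w
    rw [← Equiv.sum_comp (Equiv.mulLeft k) fun g : G => φ (g⁻¹ • (k • v))]
    refine Finset.sum_congr rfl fun g _ => ?_
    simp only [Equiv.coe_mulLeft, mul_inv_rev, smul_smul, inv_mul_cancel_right]
  have h2 : ∑ w : V, ∑ g : G, φ (g⁻¹ • w) = Fintype.card V * ∑ g : G, φ (g⁻¹ • v) := by
    rw [Finset.sum_congr rfl fun w _ => h1 w, Finset.sum_const, nsmul_eq_mul, Finset.card_univ]
  rw [← h2, Finset.sum_comm, Finset.sum_congr rfl fun g _ => sum_smul (g⁻¹ : G) φ,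
    Finset.sum_const, nsmul_eq_mul, Finset.card_univ]

theorem good_total {n : ℕ} {h : ℝ} {f : V → Fin n} (hf : Good Γ h f) :
    E Γ (fun v w => if f v = f w then 0 else 1) ≤ h * Fintype.card V := by
  rw [← sum_bdr, ← sum_ind f, Finset.mul_sum]
  exact Finset.sum_le_sum fun i _ => (hf i).2

theorem card_pos {n : ℕ} {h : ℝ} {f : V → Fin n} (hf : Good Γ h f) (i : Fin n) :
    (0 : ℝ) < Fintype.card V := by
  rw [← sum_ind f]
  exact (hf i).1.trans_le (Finset.single_le_sum (f := fun i => sz (ind f i))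
    (fun j _ => (hf j).1.le) (Finset.mem_univ i))

/-- Every class has more than `(3/2) (h/H) |V|` vertices. -/
theorem size_bound {n : ℕ} {h H : ℝ} (c : Ctx Γ n h H)
    (hΓ : ∀ (g : G) (v w : V), Γ.Adj (g • v) (g • w) ↔ Γ.Adj v w)
    (ht : ∀ v w : V, ∃ g : G, g • v = w) {f : V → Fin n} (hf : Good Γ h f) (i : Fin n) :
    3 * (h * Fintype.card V) < 2 * (H * sz (ind f i)) := by
  classical
  have h6 := c.six
  have h0 := c.h0
  have hH := c.hH
  have hHp := c.Hpos
  have hN := card_pos hf i
  set N : ℝ := (Fintype.card V : ℝ) with hNdef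
  set M : ℝ := (Fintype.card G : ℝ) with hMdef
  have hM : 0 < M := by
    rw [hMdef]; exact_mod_cast Fintype.card_pos
  set A : ℝ := sz (ind f i) with hAdef
  have hA : 0 < A := (hf i).1
  let C : Finset (Fin n) := Finset.univ.filter fun j => (H - h) * sz (ind f j) ≤ (H + h) * A
  let o : G → Fin n → ℝ := fun g j => sz fun v => ind f i v * ind (fun v => f (g⁻¹ • v)) j v
  let d : G → ℝ := fun g => E Γ fun v w => ind f i v * if f (g⁻¹ • v) = f (g⁻¹ • w) then 0 else 1
  have ho0 : ∀ g j, 0 ≤ o g j := fun g j => sz_nonneg fun v =>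
    mul_nonneg (isInd_nonneg (ind_isInd f i) v) (isInd_nonneg (ind_isInd _ j) v)
  have hd0 : ∀ g, 0 ≤ d g := fun g => E_nonneg Γ fun v w =>
    mul_nonneg (isInd_nonneg (ind_isInd f i) v) (by split_ifs <;> norm_num)
  have hkey : ∀ g, (H - 3 * h) * ((H - 2 * h) * A - d g)
      ≤ (H - h) * (H - 2 * h) * ∑ j ∈ C, o g j := by
    intro g
    have hs0 : 0 ≤ ∑ j ∈ C, o g j := Finset.sum_nonneg fun j _ => ho0 g j
    rcases matched_or c hf (good_tr hΓ hf g) i with ⟨j, h1, h2⟩ | h3
    · have h4 := (matched_ineq c hf (good_tr hΓ hf g) h1 h2).2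
      have hcomm : (fun v => ind (fun v => f (g⁻¹ • v)) j v * ind f i v)
          = fun v => ind f i v * ind (fun v => f (g⁻¹ • v)) j v := by
        ext v; ring
      have h5 := (matched_ineq c (good_tr hΓ hf g) hf (i := j) (j := i)
        (by rw [hcomm]; exact h2) (by rw [hcomm]; exact h1)).2
      have h7 := sz_split (ind f i) (ind (fun v => f (g⁻¹ • v)) j)
      have h8 := sz_split (ind (fun v => f (g⁻¹ • v)) j) (ind f i)
      rw [hcomm] at h8
      have h9 : sz (ind (fun v => f (g⁻¹ • v)) j) = sz (ind f j) := sum_smul g⁻¹ (ind f j)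
      have h10 : o g j = sz fun v => ind f i v * ind (fun v => f (g⁻¹ • v)) j v := rfl
      rw [← h10] at h1 h2 h7 h8
      rw [h9] at h2 h4 h5 h8
      have h11 : 0 ≤ sz fun v => ind f i v * (1 - ind (fun v => f (g⁻¹ • v)) j v) :=
        sz_nonneg fun v => mul_nonneg (isInd_nonneg (ind_isInd f i) v) (by
          rcases ind_isInd (fun v => f (g⁻¹ • v)) j v with h | h <;> rw [h] <;> norm_num)
      set x := sz fun v => ind f i v * (1 - ind (fun v => f (g⁻¹ • v)) j v)
      set y := sz fun v => ind (fun v => f (g⁻¹ • v)) j v * (1 - ind f i v)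
      have h12 : (H - h) * sz (ind f j) ≤ (H + h) * A := by nlinarith
      have hjC : j ∈ C := by simp only [C, Finset.mem_filter, Finset.mem_univ, true_and]; exact h12
      have h13 : (H - 3 * h) * A ≤ (H - h) * o g j := by
        have h14 : H * ((H - h) * x) ≤ H * (2 * h * A) := by nlinarith
        have h15 := le_of_mul_le_mul_left h14 hHp
        nlinarith
      have h16 : o g j ≤ ∑ j ∈ C, o g j := Finset.single_le_sum (fun k _ => ho0 g k) hjC
      have h17 : 0 < H - 2 * h := by linarith
      have h18 : 0 < H - h := by linarith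
      have h19 : 0 < H - 3 * h := by linarith
      have h20 := hd0 g
      calc (H - 3 * h) * ((H - 2 * h) * A - d g) ≤ (H - 3 * h) * ((H - 2 * h) * A) := by
            have := mul_nonneg h19.le h20
            linarith
        _ = (H - 2 * h) * ((H - 3 * h) * A) := by ring
        _ ≤ (H - 2 * h) * ((H - h) * o g j) := mul_le_mul_of_nonneg_left h13 h17.le
        _ = (H - h) * (H - 2 * h) * o g j := by ring
        _ ≤ _ := mul_le_mul_of_nonneg_left h16 (mul_pos h18 h17).le
    · have h4 : (H - 2 * h) * A - d g ≤ 0 := by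
        have : (H - 2 * h) * A ≤ d g := h3
        linarith
      have h5 : (H - 3 * h) * ((H - 2 * h) * A - d g) ≤ 0 :=
        mul_nonpos_of_nonneg_of_nonpos (by linarith) h4
      exact h5.trans (mul_nonneg (mul_nonneg (by linarith) (by linarith)) hs0)
  have hoavg : ∀ j, N * ∑ g : G, o g j = M * (A * sz (ind f j)) := by
    intro j
    have h1 : ∑ g : G, o g j = ∑ v, ind f i v * ∑ g : G, ind f j (g⁻¹ • v) := by
      simp only [o, sz]
      rw [Finset.sum_comm]
      refine Finset.sum_congr rfl fun v _ => ?_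
      rw [Finset.mul_sum]
      rfl
    rw [h1, Finset.mul_sum]
    have h2 : ∀ v, N * (ind f i v * ∑ g : G, ind f j (g⁻¹ • v))
        = ind f i v * (M * sz (ind f j)) := by
      intro v
      have := avg ht (ind f j) v
      rw [← hNdef, ← hMdef] at this
      unfold sz
      rw [← this]; ring
    rw [Finset.sum_congr rfl fun v _ => h2 v, ← Finset.sum_mul]
    change A * (M * sz (ind f j)) = _
    ring
  have hdavg : N * ∑ g : G, d g = M * (A * E Γ (fun v w => if f v = f w then 0 else 1)) := by
    let e : V → ℝ := fun u => ∑ w, adj Γ u w * if f u = f w then 0 else 1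
    have h1 : ∀ g : G, d g = ∑ v, ind f i v * e (g⁻¹ • v) := by
      intro g
      simp only [d, E]
      refine Finset.sum_congr rfl fun v _ => ?_
      simp only [e]
      rw [← sum_smul g⁻¹ fun w => adj Γ (g⁻¹ • v) w * if f (g⁻¹ • v) = f w then 0 else 1,
        Finset.mul_sum]
      refine Finset.sum_congr rfl fun w _ => ?_
      rw [adj_smul hΓ]; ring
    have h3 : ∑ g : G, d g = ∑ v, ind f i v * ∑ g : G, e (g⁻¹ • v) := by
      rw [Finset.sum_congr rfl fun g _ => h1 g, Finset.sum_comm]
      exact Finset.sum_congr rfl fun v _ => (Finset.mul_sum _ _ _).symm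
    rw [h3, Finset.mul_sum]
    have h2 : ∀ v, N * (ind f i v * ∑ g : G, e (g⁻¹ • v)) = ind f i v * (M * ∑ u, e u) := by
      intro v
      have := avg ht e v
      rw [← hNdef, ← hMdef] at this
      rw [← this]; ring
    rw [Finset.sum_congr rfl fun v _ => h2 v, ← Finset.sum_mul]
    change A * (M * E Γ (fun v w => if f v = f w then 0 else 1)) = _
    ring
  have hsum : (H - 3 * h) * ((H - 2 * h) * N - h * N)
      ≤ (H - h) * (H - 2 * h) * ∑ j ∈ C, sz (ind f j) := by
    have h1 := Finset.sum_le_sum fun g (_ : g ∈ (Finset.univ : Finset G)) => hkey g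
    rw [← Finset.mul_sum, ← Finset.mul_sum, Finset.sum_sub_distrib, Finset.sum_const, nsmul_eq_mul,
      Finset.card_univ, ← hMdef, Finset.sum_comm] at h1
    have h2 := mul_le_mul_of_nonneg_left h1 hN.le
    have h3 : N * ((H - h) * (H - 2 * h) * ∑ j ∈ C, ∑ g : G, o g j)
        = (H - h) * (H - 2 * h) * (M * (A * ∑ j ∈ C, sz (ind f j))) := by
      have : N * ∑ j ∈ C, ∑ g : G, o g j = M * (A * ∑ j ∈ C, sz (ind f j)) := by
        rw [Finset.mul_sum, Finset.mul_sum, Finset.mul_sum]
        exact Finset.sum_congr rfl fun j _ => hoavg j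
      rw [← this]; ring
    have h4 : N * ((H - 3 * h) * (M * ((H - 2 * h) * A) - ∑ g : G, d g))
        = (H - 3 * h) * (M * A * ((H - 2 * h) * N)
          - M * (A * E Γ (fun v w => if f v = f w then 0 else 1))) := by
      rw [← hdavg]; ring
    rw [h3, h4] at h2
    have h5 : M * (A * E Γ (fun v w => if f v = f w then 0 else 1)) ≤ M * A * (h * N) := by
      rw [← mul_assoc]
      exact mul_le_mul_of_nonneg_left (good_total hf) (mul_pos hM hA).le
    have h6' : 0 < H - 3 * h := by linarith
    have h7 : (M * A) * ((H - 3 * h) * ((H - 2 * h) * N - h * N))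
        ≤ (M * A) * ((H - h) * (H - 2 * h) * ∑ j ∈ C, sz (ind f j)) := by
      nlinarith [mul_le_mul_of_nonneg_left h5 h6'.le]
    exact le_of_mul_le_mul_left h7 (mul_pos hM hA)
  have hiC : i ∈ C := by
    simp only [C, Finset.mem_filter, Finset.mem_univ, true_and]
    exact mul_le_mul_of_nonneg_right (by linarith) hA.le
  have hn : (2 : ℝ) ≤ n := by exact_mod_cast c.hn
  by_contra hcon
  push Not at hcon
  have hCsum : (H - h) * ∑ j ∈ C, sz (ind f j)
      ≤ (H - h) * A + ((C.erase i).card : ℝ) * ((H + h) * A) := by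
    rw [← Finset.add_sum_erase C _ hiC, mul_add, Finset.mul_sum]
    refine add_le_add le_rfl ?_
    rw [← nsmul_eq_mul]
    exact Finset.sum_le_card_nsmul _ _ _ fun j hj =>
      (Finset.mem_filter.1 (Finset.mem_of_mem_erase hj)).2
  by_cases hall : C = Finset.univ
  · rw [hall, sum_ind] at hCsum
    rw [Finset.card_erase_of_mem (Finset.mem_univ i), Finset.card_univ, Fintype.card_fin,
      Nat.cast_sub (by have := c.hn; omega), Nat.cast_one] at hCsum
    have h1 : 2 * H * ((H - h) * N) ≤ 3 * h * N * ((H - h) + ((n : ℝ) - 1) * (H + h)) := by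
      have : 0 ≤ (H - h) + ((n : ℝ) - 1) * (H + h) := by
        have := mul_nonneg (show (0 : ℝ) ≤ (n : ℝ) - 1 by linarith) (show 0 ≤ H + h by linarith)
        linarith
      nlinarith [mul_le_mul_of_nonneg_right hcon this]
    have h2 : 2 * H * (H - h) ≤ 3 * h * ((H - h) + ((n : ℝ) - 1) * (H + h)) := by
      refine le_of_mul_le_mul_right ?_ hN
      linarith
    have h3 : (n : ℝ) * h * (H + h) ≤ (H / 2 - h) * (H + h) :=
      mul_le_mul_of_nonneg_right (by linarith) (by linarith)
    nlinarith
  · obtain ⟨j0, hj0⟩ : ∃ j0, j0 ∉ C := by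
      by_contra h
      push Not at h
      exact hall (Finset.eq_univ_iff_forall.2 h)
    have hcard : ((C.erase i).card : ℝ) ≤ (n : ℝ) - 2 := by
      have h1 : C ⊆ Finset.univ.erase j0 := fun j hj =>
        Finset.mem_erase.2 ⟨fun h => hj0 (h ▸ hj), Finset.mem_univ j⟩
      have h2 := Finset.card_le_card h1
      rw [Finset.card_erase_of_mem (Finset.mem_univ j0), Finset.card_univ, Fintype.card_fin] at h2
      have h3 : (C.erase i).card ≤ n - 2 := by
        rw [Finset.card_erase_of_mem hiC]
        omega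
      have h4 : (((n - 2 : ℕ)) : ℝ) = (n : ℝ) - 2 := by
        rw [Nat.cast_sub c.hn]; norm_num
      rw [← h4]
      exact_mod_cast h3
    have h1 : (H - h) * ∑ j ∈ C, sz (ind f j) ≤ (H - h) * A + ((n : ℝ) - 2) * ((H + h) * A) :=
      hCsum.trans (add_le_add le_rfl (mul_le_mul_of_nonneg_right hcard
        (mul_pos (by linarith) hA).le))
    have h2 : (H - 3 * h) ^ 2 * N ≤ (H - 2 * h) * (A * ((H - h) + ((n : ℝ) - 2) * (H + h))) := by
      have := mul_le_mul_of_nonneg_left h1 (show 0 ≤ H - 2 * h by linarith)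
      nlinarith
    have h3 : 2 * H * ((H - 3 * h) ^ 2 * N)
        ≤ 3 * (h * N) * ((H - 2 * h) * ((H - h) + ((n : ℝ) - 2) * (H + h))) := by
      have h4 : 0 ≤ (H - 2 * h) * ((H - h) + ((n : ℝ) - 2) * (H + h)) := by
        have := mul_nonneg (show (0 : ℝ) ≤ (n : ℝ) - 2 by linarith) (show 0 ≤ H + h by linarith)
        exact mul_nonneg (by linarith) (by linarith)
      have h5 := mul_le_mul_of_nonneg_right hcon h4
      have h6 := mul_le_mul_of_nonneg_left h2 (show 0 ≤ 2 * H by linarith)
      nlinarith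
    have h4 : 2 * H * (H - 3 * h) ^ 2
        ≤ 3 * h * ((H - 2 * h) * ((H - h) + ((n : ℝ) - 2) * (H + h))) := by
      refine le_of_mul_le_mul_right ?_ hN
      linarith
    have h5 : h * ((H - h) + ((n : ℝ) - 2) * (H + h))
        ≤ H ^ 2 / 2 - 3 / 2 * h * H - 4 * h ^ 2 := by
      have : (n : ℝ) * h * (H + h) ≤ (H / 2 - h) * (H + h) :=
        mul_le_mul_of_nonneg_right (by linarith) (by linarith)
      nlinarith
    have h7 := mul_le_mul_of_nonneg_left h5 (show 0 ≤ 3 * (H - 2 * h) by linarith)
    obtain ⟨y, hy⟩ : ∃ y, H = 6 * h + y := ⟨H - 6 * h, by ring⟩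
    have hy0 : 0 < y := by linarith
    have h8 : 2 * H * (H - 3 * h) ^ 2
        ≤ 3 * (H - 2 * h) * (H ^ 2 / 2 - 3 / 2 * h * H - 4 * h ^ 2) := by linarith
    have h9 : 2 * H * (H - 3 * h) ^ 2
        - 3 * (H - 2 * h) * (H ^ 2 / 2 - 3 / 2 * h * H - 4 * h ^ 2)
        = 48 * h ^ 3 + 21 * h ^ 2 * y + 9 / 2 * h * y ^ 2 + y ^ 3 / 2 := by
      rw [hy]; ring
    have h10 : 0 < 48 * h ^ 3 + 21 * h ^ 2 * y + 9 / 2 * h * y ^ 2 + y ^ 3 / 2 := by positivity
    linarith

/-- For every `g` there is a permutation of the classes matching the partition with its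
translate up to at most `(h / H) |V|` vertices. -/
theorem exists_perm {n : ℕ} {h H : ℝ} (c : Ctx Γ n h H)
    (hΓ : ∀ (g : G) (v w : V), Γ.Adj (g • v) (g • w) ↔ Γ.Adj v w)
    (ht : ∀ v w : V, ∃ g : G, g • v = w) {f : V → Fin n} (hf : Good Γ h f) (g : G) :
    ∃ σ : Equiv.Perm (Fin n),
      H * ∑ v, (if f (g⁻¹ • v) = σ (f v) then (0 : ℝ) else 1) ≤ h * Fintype.card V := by
  classical
  have h6 := c.six
  have h0 := c.h0
  have hf' := good_tr hΓ hf g
  set f' : V → Fin n := fun v => f (g⁻¹ • v) with hf'def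
  have hall : ∀ i, ∃ j, sz (ind f i) < 2 * sz (fun v => ind f i v * ind f' j v) ∧
      sz (ind f' j) < 2 * sz (fun v => ind f i v * ind f' j v) := by
    intro i
    rcases matched_or c hf hf' i with h1 | h1
    · exact h1
    · exfalso
      have h2 : E Γ (fun v w => ind f i v * if f' v = f' w then 0 else 1)
          ≤ E Γ (fun v w => if f' v = f' w then 0 else 1) := E_mono Γ fun v w => by
        rcases ind_isInd f i v with h3 | h3 <;> rw [h3] <;> split_ifs <;> norm_num
      have h3 := good_total hf'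
      have h4 := size_bound c hΓ ht hf i
      have h5 := (hf i).1
      nlinarith
  choose σ hσ using hall
  have hinj : Function.Injective σ := by
    intro i i' hii
    by_contra hne
    have h1 := (hσ i).2
    have h2 := (hσ i').2
    rw [← hii] at h2
    have h3 : sz (fun v => ind f i v * ind f' (σ i) v) + sz (fun v => ind f i' v * ind f' (σ i) v)
        ≤ sz (ind f' (σ i)) := by
      unfold sz
      rw [← Finset.sum_add_distrib]
      refine Finset.sum_le_sum fun v _ => ?_
      have h4 : ind f i v + ind f i' v ≤ 1 := by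
        unfold ind
        by_cases h5 : f v = i
        · rw [if_pos h5, if_neg (fun h6 => hne (h5.symm.trans h6))]; norm_num
        · rw [if_neg h5]; split_ifs <;> norm_num
      have h5 := isInd_nonneg (ind_isInd f' (σ i)) v
      nlinarith
    linarith
  let τ : Equiv.Perm (Fin n) := Equiv.ofBijective σ (Finite.injective_iff_bijective.1 hinj)
  refine ⟨τ, ?_⟩
  have h1 : ∑ i, sz (fun v => ind f i v * (1 - ind f' (σ i) v))
      = ∑ v, (if f' v = τ (f v) then (0 : ℝ) else 1) := by
    unfold sz
    rw [Finset.sum_comm]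
    refine Finset.sum_congr rfl fun v _ => ?_
    have : ∀ i, ind f i v * (1 - ind f' (σ i) v)
        = if f v = i then (if f' v = τ (f v) then (0 : ℝ) else 1) else 0 := by
      intro i
      unfold ind
      by_cases h : f v = i
      · rw [if_pos h, if_pos h, ← h]
        change 1 * (1 - if f' v = σ (f v) then (1 : ℝ) else 0)
          = if f' v = σ (f v) then (0 : ℝ) else 1
        split_ifs <;> norm_num
      · rw [if_neg h, if_neg h, zero_mul]
    rw [Finset.sum_congr rfl fun i _ => this i, Finset.sum_ite_eq, if_pos (Finset.mem_univ _)]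
  have h2 : ∑ i, sz (fun v => ind f' (σ i) v * (1 - ind f i v))
      = ∑ i, sz (fun v => ind f i v * (1 - ind f' (σ i) v)) := by
    have h3 : ∑ i, sz (ind f i) = ∑ i, sz (ind f' (σ i)) := by
      rw [sum_ind, ← sum_ind f']
      exact (Equiv.sum_comp τ fun i => sz (ind f' i)).symm
    have h4 : ∀ i, sz (fun v => ind f' (σ i) v * (1 - ind f i v)) + sz (ind f i)
        = sz (fun v => ind f i v * (1 - ind f' (σ i) v)) + sz (ind f' (σ i)) := by
      intro i
      unfold sz
      rw [← Finset.sum_add_distrib, ← Finset.sum_add_distrib]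
      exact Finset.sum_congr rfl fun v _ => by ring
    have h5 := Finset.sum_congr rfl fun i (_ : i ∈ Finset.univ) => h4 i
    rw [Finset.sum_add_distrib, Finset.sum_add_distrib] at h5
    linarith
  have h3 : ∀ i, H * sz (fun v => ind f i v * (1 - ind f' (σ i) v))
      + H * sz (fun v => ind f' (σ i) v * (1 - ind f i v))
      ≤ bdr Γ (ind f i) + bdr Γ (ind f' (σ i)) := by
    intro i
    have h4 := (matched_ineq c hf hf' (hσ i).1 (hσ i).2).1
    have hcomm : (fun v => ind f' (σ i) v * ind f i v) = fun v => ind f i v * ind f' (σ i) v := by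
      ext v; ring
    have h5 := (matched_ineq c hf' hf (i := σ i) (j := i)
      (by rw [hcomm]; exact (hσ i).2) (by rw [hcomm]; exact (hσ i).1)).1
    have h7 := bdr_posi Γ (ind_isInd f i) (ind_isInd f' (σ i))
    linarith
  have h4 := Finset.sum_le_sum fun i (_ : i ∈ Finset.univ) => h3 i
  rw [Finset.sum_add_distrib, Finset.sum_add_distrib, ← Finset.mul_sum, ← Finset.mul_sum, h2,
    h1] at h4
  have h5 : ∑ i, bdr Γ (ind f' (σ i)) = ∑ i, bdr Γ (ind f' i) :=
    Equiv.sum_comp τ fun i => bdr Γ (ind f' i)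
  rw [h5, sum_bdr, sum_bdr] at h4
  have h7 := good_total hf
  have h8 := good_total hf'
  change H * ∑ v, (if f' v = τ (f v) then (0 : ℝ) else 1) ≤ _
  linarith

/-- The permutations multiply. -/
theorem perm_mul {n : ℕ} {h H : ℝ} (c : Ctx Γ n h H)
    (hΓ : ∀ (g : G) (v w : V), Γ.Adj (g • v) (g • w) ↔ Γ.Adj v w)
    (ht : ∀ v w : V, ∃ g : G, g • v = w) {f : V → Fin n} (hf : Good Γ h f)
    {σ : G → Equiv.Perm (Fin n)}
    (hσ : ∀ g, H * ∑ v, (if f (g⁻¹ • v) = σ g (f v) then (0 : ℝ) else 1) ≤ h * Fintype.card V)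
    (g k : G) (i : Fin n) : σ (g * k) i = σ k (σ g i) := by
  classical
  by_contra hne
  -- a second index where they differ
  let i' := (σ g).symm ((σ k).symm (σ (g * k) i))
  have hi' : σ k (σ g i') = σ (g * k) i := by simp [i']
  have hii : i' ≠ i := by
    intro h1
    rw [h1] at hi'
    exact hne hi'.symm
  have hne' : σ (g * k) i' ≠ σ k (σ g i') := by
    rw [hi']
    intro h1
    exact hii ((σ (g * k)).injective h1)
  have key : ∀ v, ind f i v + ind f i' v
      ≤ (if f ((g * k)⁻¹ • v) = σ (g * k) (f v) then (0 : ℝ) else 1)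
        + (if f (g⁻¹ • v) = σ g (f v) then (0 : ℝ) else 1)
        + (if f (k⁻¹ • (g⁻¹ • v)) = σ k (f (g⁻¹ • v)) then (0 : ℝ) else 1) := by
    intro v
    by_cases h1 : f v = i ∨ f v = i'
    · have h2 : ind f i v + ind f i' v ≤ 1 := by
        unfold ind
        rcases h1 with h1 | h1
        · rw [if_pos h1, if_neg (fun h => hii (h.symm.trans h1))]; norm_num
        · rw [if_pos h1, if_neg (fun h => hii (h1.symm.trans h))]; norm_num
      have h3 : σ (g * k) (f v) ≠ σ k (σ g (f v)) := by
        rcases h1 with h1 | h1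
        · rw [h1]; exact hne
        · rw [h1]; exact hne'
      have h4 : ¬ (f ((g * k)⁻¹ • v) = σ (g * k) (f v) ∧ f (g⁻¹ • v) = σ g (f v) ∧
          f (k⁻¹ • (g⁻¹ • v)) = σ k (f (g⁻¹ • v))) := by
        rintro ⟨h5, h6, h7⟩
        apply h3
        rw [← h5, ← h6, ← h7, smul_smul, mul_inv_rev]
      refine h2.trans ?_
      split_ifs with h5 h6 h7 <;> first | (norm_num; done) | exact (h4 ⟨h5, h6, h7⟩).elim
    · push Not at h1
      unfold ind
      rw [if_neg h1.1, if_neg h1.2]
      split_ifs <;> norm_num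
  have h1 := Finset.sum_le_sum fun v (_ : v ∈ Finset.univ) => key v
  simp only [Finset.sum_add_distrib] at h1
  have h2 : ∑ v, (if f (k⁻¹ • (g⁻¹ • v)) = σ k (f (g⁻¹ • v)) then (0 : ℝ) else 1)
      = ∑ v, (if f (k⁻¹ • v) = σ k (f v) then (0 : ℝ) else 1) :=
    sum_smul g⁻¹ fun v => if f (k⁻¹ • v) = σ k (f v) then (0 : ℝ) else 1
  rw [h2] at h1
  have h3 := hσ (g * k)
  have h4 := hσ g
  have h5 := hσ k
  have h6 := size_bound c hΓ ht hf i
  have h7 := size_bound c hΓ ht hf i'
  have hHp := c.Hpos
  have h8 := mul_le_mul_of_nonneg_left h1 hHp.le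
  unfold sz at h6 h7
  nlinarith

/-- The core statement: an equivariant partition into `n` blocks of cost at most `h`. -/
theorem core {n : ℕ} {h H : ℝ} (c : Ctx Γ n h H)
    (hΓ : ∀ (g : G) (v w : V), Γ.Adj (g • v) (g • w) ↔ Γ.Adj v w)
    (ht : ∀ v w : V, ∃ g : G, g • v = w) {f : V → Fin n} (hf : Good Γ h f) :
    ∃ F : V → Fin n, Function.Surjective F ∧ (∀ i, bdr Γ (ind F i) ≤ h * sz (ind F i)) ∧
      ∀ g : G, ∃ τ : Equiv.Perm (Fin n), ∀ v, F (g • v) = τ (F v) := by
  classical
  have h6 := c.six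
  have h0 := c.h0
  have hHp := c.Hpos
  have hn2 : (2 : ℝ) ≤ n := by exact_mod_cast c.hn
  have i0 : Fin n := ⟨0, by have := c.hn; omega⟩
  have hN := card_pos hf i0
  choose σ hσ using exists_perm c hΓ ht hf
  have hmul := perm_mul c hΓ ht hf hσ
  set N : ℝ := (Fintype.card V : ℝ) with hNdef
  set M : ℝ := (Fintype.card G : ℝ) with hMdef
  have hM : 0 < M := by
    rw [hMdef]; exact_mod_cast Fintype.card_pos
  -- the votes
  let cnt : V → Fin n → ℝ := fun v i => ∑ g : G, if f (g⁻¹ • v) = σ g i then (1 : ℝ) else 0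
  have hcnt : ∀ (k : G) v i, cnt (k • v) i = cnt v (σ k i) := by
    intro k v i
    simp only [cnt]
    rw [← Equiv.sum_comp (Equiv.mulLeft k)]
    refine Finset.sum_congr rfl fun g _ => ?_
    simp only [Equiv.coe_mulLeft, mul_inv_rev, smul_smul, inv_mul_cancel_right, hmul k g i]
  have htwo : ∀ v i i', i ≠ i' → cnt v i + cnt v i' ≤ M := by
    intro v i i' hne
    simp only [cnt]
    rw [← Finset.sum_add_distrib]
    calc _ ≤ ∑ g : G, (1 : ℝ) := Finset.sum_le_sum fun g _ => by
          by_cases h1 : f (g⁻¹ • v) = σ g i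
          · rw [if_pos h1, if_neg fun h2 => hne ((σ g).injective (h1.symm.trans h2))]; norm_num
          · rw [if_neg h1]; split_ifs <;> norm_num
      _ = M := by simp [hMdef]
  have hone : ∀ v i, cnt v i ≤ M := by
    intro v i
    calc _ ≤ ∑ g : G, (1 : ℝ) := Finset.sum_le_sum fun g _ => by split_ifs <;> norm_num
      _ = M := by simp [hMdef]
  have htot : M * (N * (H - h)) ≤ H * ∑ v, cnt v (f v) := by
    simp only [cnt]
    rw [Finset.sum_comm, Finset.mul_sum]
    calc M * (N * (H - h)) = ∑ g : G, N * (H - h) := by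
          rw [Finset.sum_const, nsmul_eq_mul, Finset.card_univ]
      _ ≤ _ := Finset.sum_le_sum fun g _ => by
          have h1 := hσ g
          have h2 : ∑ v, (if f (g⁻¹ • v) = σ g (f v) then (1 : ℝ) else 0)
              = N - ∑ v, (if f (g⁻¹ • v) = σ g (f v) then (0 : ℝ) else 1) := by
            have : N = ∑ v : V, (1 : ℝ) := by simp [hNdef]
            rw [this, ← Finset.sum_sub_distrib]
            exact Finset.sum_congr rfl fun v _ => by split_ifs <;> norm_num
          rw [h2]
          linarith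
  have hex : ∀ v, ∃ i, M * (H - h) ≤ H * cnt v i := by
    obtain ⟨v0, hv0⟩ : ∃ v0, M * (H - h) ≤ H * cnt v0 (f v0) := by
      by_contra hcon
      push Not at hcon
      have h1 : H * ∑ v, cnt v (f v) < N * (M * (H - h)) := by
        rw [Finset.mul_sum]
        have : N * (M * (H - h)) = ∑ v : V, M * (H - h) := by
          rw [Finset.sum_const, nsmul_eq_mul, Finset.card_univ]
        rw [this]
        refine Finset.sum_lt_sum_of_nonempty ?_ fun v _ => hcon v
        rw [Finset.univ_nonempty_iff]
        rw [hNdef] at hN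
        exact Fintype.card_pos_iff.1 (by exact_mod_cast hN)
      linarith
    intro v
    obtain ⟨k, rfl⟩ := ht v0 v
    exact ⟨(σ k).symm (f v0), by rw [hcnt, Equiv.apply_symm_apply]; exact hv0⟩
  choose F hF using hex
  have huniq : ∀ v i, M * (H - h) ≤ H * cnt v i → i = F v := by
    intro v i hi
    by_contra hne
    have h1 := htwo v i (F v) hne
    have h2 := hF v
    nlinarith
  have hequiv : ∀ (k : G) v, σ k (F (k • v)) = F v := by
    intro k v
    refine huniq v _ ?_
    rw [← hcnt]
    exact hF (k • v)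
  -- the number of vertices where `F` and `f` differ
  let dis : V → ℝ := fun v => if F v = f v then 0 else 1
  have hdis0 : ∀ v, 0 ≤ dis v := fun v => by simp only [dis]; split_ifs <;> norm_num
  set s : ℝ := ∑ v, dis v with hsdef
  have hs0 : 0 ≤ s := Finset.sum_nonneg fun v _ => hdis0 v
  have hs1 : s * (H - h) ≤ h * N := by
    have h1 : ∀ v, H * cnt v (f v) ≤ M * H - M * (H - h) * dis v := by
      intro v
      simp only [dis]
      by_cases h1 : F v = f v
      · rw [if_pos h1]
        nlinarith [hone v (f v)]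
      · rw [if_neg h1]
        have h2 := htwo v (F v) (f v) h1
        have h3 := hF v
        nlinarith
    have h2 := Finset.sum_le_sum fun v (_ : v ∈ Finset.univ) => h1 v
    rw [← Finset.mul_sum, Finset.sum_sub_distrib, Finset.sum_const, nsmul_eq_mul,
      Finset.card_univ, ← hNdef, ← Finset.mul_sum, ← hsdef] at h2
    have h3 : M * (s * (H - h)) ≤ M * (h * N) := by nlinarith
    exact le_of_mul_le_mul_left h3 hM
  have hs2 : 2 * (n : ℝ) * s < N := by
    rcases h0.eq_or_lt with h1 | h1
    · rw [← h1] at hs1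
      have : s ≤ 0 := by nlinarith
      have : s = 0 := le_antisymm this hs0
      rw [this]; simpa using hN
    · have h2 : s * (2 * n + 1) ≤ N := by
        have h3 : s * ((2 * n + 1) * h) ≤ s * (H - h) :=
          mul_le_mul_of_nonneg_left (by linarith [c.hH]) hs0
        have h4 : h * (s * (2 * n + 1)) ≤ h * N := by linarith
        exact le_of_mul_le_mul_left h4 h1
      rcases hs0.eq_or_lt with h3 | h3
      · rw [← h3]; simpa using hN
      · linarith
  have hsurj : Function.Surjective F := by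
    intro i
    by_contra hcon
    push Not at hcon
    have h1 : sz (ind f i) ≤ s := by
      refine Finset.sum_le_sum fun v _ => ?_
      unfold ind
      simp only [dis]
      by_cases h2 : f v = i
      · rw [if_pos h2, if_neg (by rw [h2]; exact hcon v)]
      · rw [if_neg h2]; split_ifs <;> norm_num
    have h2 := size_bound c hΓ ht hf i
    nlinarith
  have hτ : ∀ g : G, ∃ τ : Equiv.Perm (Fin n), ∀ v, F (g • v) = τ (F v) := fun g =>
    ⟨(σ g).symm, fun v => by rw [← hequiv g v, Equiv.symm_apply_apply]⟩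
  -- blocks have equal sizes
  have hsize : ∀ i j, sz (ind F i) = sz (ind F j) := by
    intro i j
    obtain ⟨v, hv⟩ := hsurj i
    obtain ⟨w, hw⟩ := hsurj j
    obtain ⟨g, hg⟩ := ht v w
    obtain ⟨τ, hτg⟩ := hτ g
    have h1 : τ i = j := by rw [← hv, ← hτg, hg, hw]
    unfold sz
    rw [← sum_smul g (ind F j)]
    refine Finset.sum_congr rfl fun u _ => ?_
    unfold ind
    rw [hτg, ← h1]
    by_cases h2 : F u = i
    · rw [if_pos h2, if_pos (by rw [h2])]
    · rw [if_neg h2, if_neg fun h3 => h2 (τ.injective h3)]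
  have hblock : ∀ i, n * sz (ind F i) = N := by
    intro i
    rw [hNdef, ← sum_ind F, Finset.sum_congr rfl fun j _ => hsize j i, Finset.sum_const,
      nsmul_eq_mul, Finset.card_univ, Fintype.card_fin]
  -- the common number of neighbors in other blocks
  let out : V → ℝ := fun v => ∑ w, adj Γ v w * if F v = F w then 0 else 1
  obtain ⟨v0, -⟩ := hsurj i0
  have hout : ∀ v, out v = out v0 := by
    intro v
    obtain ⟨g, rfl⟩ := ht v0 v
    obtain ⟨τ, hτg⟩ := hτ g
    simp only [out]
    rw [← sum_smul g]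
    refine Finset.sum_congr rfl fun w _ => ?_
    rw [adj_smul hΓ, hτg, hτg]
    simp only [τ.injective.eq_iff]
  set b : ℝ := out v0 with hb
  have hb0 : 0 ≤ b := Finset.sum_nonneg fun w _ =>
    mul_nonneg (adj_nonneg Γ _ _) (by split_ifs <;> norm_num)
  have hweight : ∀ a : V → ℝ, E Γ (fun v w => a v * if F v = F w then 0 else 1) = b * sz a := by
    intro a
    unfold E sz
    rw [Finset.mul_sum]
    refine Finset.sum_congr rfl fun v _ => ?_
    rw [← hout v]
    simp only [out]
    rw [Finset.sum_mul]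
    exact Finset.sum_congr rfl fun w _ => by ring
  have hbdF : ∀ i, bdr Γ (ind F i) = b * sz (ind F i) := by
    intro i
    rw [← hweight]
    refine E_congr Γ fun v w => ?_
    unfold ind
    by_cases h1 : F v = i
    · rw [if_pos h1, h1]
      by_cases h2 : F w = i
      · rw [if_pos h2, if_pos h2.symm]; ring
      · rw [if_neg h2, if_neg (Ne.symm h2)]; ring
    · rw [if_neg h1]; ring
  have hwtot : E Γ (fun v w => if F v = F w then 0 else 1) = b * N := by
    have := hweight fun _ => 1
    simp only [one_mul] at this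
    rw [this]
    simp [sz, hNdef]
  have hw1 := hweight dis
  have hw2 : E Γ (fun v w => dis w * if F v = F w then 0 else 1) = b * s := by
    rw [← E_symm Γ fun v w => dis w * if F v = F w then 0 else 1]
    refine (E_congr Γ fun v w => ?_).trans hw1
    by_cases h1 : F v = F w
    · rw [if_pos h1, if_pos h1.symm]
    · rw [if_neg h1, if_neg (Ne.symm h1)]
  change E Γ (fun v w => dis v * if F v = F w then 0 else 1) = b * s at hw1
  have hgt := good_total hf
  rw [← hNdef] at hgt
  have hfe : ∀ {v}, dis v = 0 → F v = f v := by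
    intro v hv
    by_contra h1
    simp only [dis, if_neg h1] at hv
    exact one_ne_zero hv
  have hd01 : ∀ v, dis v = 0 ∨ dis v = 1 := fun v => by
    simp only [dis]; split_ifs
    · exact Or.inl rfl
    · exact Or.inr rfl
  have hK1 : b * N - b * s - b * s ≤ h * N := by
    have h1 := E_mono Γ (φ := fun v w => (if F v = F w then 0 else 1)
      - dis v * (if F v = F w then 0 else 1) - dis w * (if F v = F w then 0 else 1))
      (ψ := fun v w => if f v = f w then (0 : ℝ) else 1) (fun v w => by
        rcases hd01 v with h1 | h1 <;> rcases hd01 w with h2 | h2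
        · rw [h1, h2, hfe h1, hfe h2]; linarith
        · rw [h1, h2]; split_ifs <;> norm_num
        · rw [h1, h2]; split_ifs <;> norm_num
        · rw [h1, h2]; split_ifs <;> norm_num)
    rw [E_sub, E_sub, hwtot, hw1, hw2] at h1
    exact h1.trans hgt
  have h4s : 4 * s < N := by nlinarith
  have hb2 : b ≤ 2 * h := by
    have h1 : N * b ≤ N * (2 * h) := by nlinarith
    exact le_of_mul_le_mul_left h1 hN
  have hR : ∀ i, H * sz (fun v => ind f i v * (1 - ind F i v))
      ≤ bdr Γ (fun v => ind f i v * (1 - ind F i v)) := by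
    intro i
    rcases c.F1 f hf i (ind F i) (ind_isInd F i) with h1 | h1
    · exfalso
      have h2 := bdr_mul Γ (ind_isInd f i) (ind_isInd F i)
      have h3 := (hf i).2
      have h4 := hbdF i
      have h5 := sz_split (ind f i) (ind F i)
      have h7 := sz_split (ind F i) (ind f i)
      have hcomm : (fun v => ind F i v * ind f i v) = fun v => ind f i v * ind F i v := by
        ext v; ring
      rw [hcomm] at h7
      have h8 : sz (fun v => ind f i v * (1 - ind F i v)) ≤ s := by
        refine Finset.sum_le_sum fun v _ => ?_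
        unfold ind
        simp only [dis]
        by_cases h9 : F v = f v
        · rw [if_pos h9, h9]; split_ifs <;> norm_num
        · rw [if_neg h9]; split_ifs <;> norm_num
      have h9 : sz (fun v => ind F i v * (1 - ind f i v)) ≤ s := by
        refine Finset.sum_le_sum fun v _ => ?_
        unfold ind
        simp only [dis]
        by_cases h9 : F v = f v
        · rw [if_pos h9, h9]; split_ifs <;> norm_num
        · rw [if_neg h9]; split_ifs <;> norm_num
      have h10 : 2 * s < sz (ind F i) := by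
        have h11 : (n : ℝ) * (2 * s) < n * sz (ind F i) := by rw [hblock]; linarith
        exact lt_of_mul_lt_mul_left h11 (by linarith)
      set T := sz (fun v => ind f i v * ind F i v)
      have hT : s < T := by linarith
      have h11 : h * sz (ind f i) ≤ h * (2 * T) := mul_le_mul_of_nonneg_left (by linarith) h0
      have h12 : b * sz (ind F i) ≤ 2 * h * (2 * T) := by
        have h13 : b * sz (ind F i) ≤ b * (2 * T) := mul_le_mul_of_nonneg_left (by linarith) hb0
        have h14 : b * (2 * T) ≤ 2 * h * (2 * T) := mul_le_mul_of_nonneg_right hb2 (by linarith)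
        linarith
      have h13 : 0 < (H - 6 * h) * T := mul_pos (by linarith) (by linarith)
      nlinarith
    · exact h1
  have hRs : H * s ≤ E Γ (fun v w => dis v * (1 - if f v = f w then dis w else 0)) := by
    have h1 := Finset.sum_le_sum fun i (_ : i ∈ Finset.univ) => hR i
    rw [← Finset.mul_sum] at h1
    have h2 : ∑ i, sz (fun v => ind f i v * (1 - ind F i v)) = s := by
      unfold sz
      rw [Finset.sum_comm]
      refine Finset.sum_congr rfl fun v _ => ?_
      have : ∀ i, ind f i v * (1 - ind F i v) = if f v = i then dis v else 0 := by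
        intro i
        unfold ind
        simp only [dis]
        by_cases h3 : f v = i
        · rw [if_pos h3, if_pos h3, ← h3]; split_ifs <;> norm_num
        · rw [if_neg h3, if_neg h3, zero_mul]
      rw [Finset.sum_congr rfl fun i _ => this i, Finset.sum_ite_eq, if_pos (Finset.mem_univ _)]
    have h3 : ∑ i, bdr Γ (fun v => ind f i v * (1 - ind F i v))
        = E Γ (fun v w => dis v * (1 - if f v = f w then dis w else 0)) := by
      unfold bdr
      rw [← E_sum]
      refine E_congr Γ fun v w => ?_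
      have : ∀ i, ind f i v * (1 - ind F i v) * (1 - ind f i w * (1 - ind F i w))
          = if f v = i then dis v * (1 - if f v = f w then dis w else 0) else 0 := by
        intro i
        unfold ind
        simp only [dis]
        by_cases h3 : f v = i
        · rw [if_pos h3, if_pos h3, ← h3]
          by_cases h4 : f v = f w
          · rw [if_pos h4.symm, if_pos h4, h4]
            split_ifs <;> norm_num
          · rw [if_neg (Ne.symm h4), if_neg h4]
            split_ifs <;> norm_num
        · rw [if_neg h3, if_neg h3, zero_mul, zero_mul]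
      rw [Finset.sum_congr rfl fun i _ => this i, Finset.sum_ite_eq, if_pos (Finset.mem_univ _)]
    rw [h2, h3] at h1
    exact h1
  have hK2 : b * N - b * s - b * s
      + E Γ (fun v w => dis v * (1 - if f v = f w then dis w else 0)) - b * s ≤ h * N := by
    have h1 := E_mono Γ (φ := fun v w => (if F v = F w then 0 else 1)
      - dis v * (if F v = F w then 0 else 1) - dis w * (if F v = F w then 0 else 1)
      + dis v * (1 - if f v = f w then dis w else 0) - dis v * (if F v = F w then 0 else 1))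
      (ψ := fun v w => if f v = f w then (0 : ℝ) else 1) (fun v w => by
        rcases hd01 v with h1 | h1 <;> rcases hd01 w with h2 | h2
        · rw [h1, h2, hfe h1, hfe h2]; linarith
        · rw [h1, h2]; split_ifs <;> norm_num
        · rw [h1, h2]
          by_cases h3 : f v = f w
          · have h4 : F v ≠ F w := by
              rw [hfe h2, ← h3]
              intro h5
              simp only [dis, if_pos h5] at h1
              exact zero_ne_one h1
            rw [if_neg h4, if_pos h3, if_pos h3]; norm_num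
          · rw [if_neg h3, if_neg h3]; split_ifs <;> norm_num
        · rw [h1, h2]; split_ifs <;> norm_num)
    rw [E_sub, E_add, E_sub, E_sub, hwtot, hw1, hw2] at h1
    exact h1.trans hgt
  have hbh : b ≤ h := by
    have h1 : N * b ≤ N * h := by
      have : 0 ≤ (H - 3 * b) * s := mul_nonneg (by linarith) hs0
      nlinarith
    exact le_of_mul_le_mul_left h1 hN
  refine ⟨F, hsurj, fun i => ?_, hτ⟩
  rw [hbdF]
  refine mul_le_mul_of_nonneg_right hbh (sz_nonneg (isInd_nonneg (ind_isInd F i)))

end action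

end core

section transfer

variable {V : Type} [Fintype V] {Γ : SimpleGraph V}

open Classical in
theorem ncard_boundary (A : Set V) :
    ((boundary Γ A).ncard : ℝ) = bdr Γ (fun v => if v ∈ A then 1 else 0) := by
  have h1 : boundary Γ A = (fun p : V × V => s(p.1, p.2)) ''
      (↑(Finset.univ.filter fun p : V × V => p.1 ∈ A ∧ p.2 ∉ A ∧ Γ.Adj p.1 p.2) : Set (V × V)) := by
    ext e
    simp only [boundary, Set.mem_ofPred_eq, Set.mem_image, Finset.coe_filter, Finset.mem_univ,
      true_and, Prod.exists]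
    constructor
    · rintro ⟨he, v, hv, w, hw, rfl⟩
      exact ⟨v, w, ⟨hv, hw, he⟩, rfl⟩
    · rintro ⟨v, w, ⟨hv, hw, he⟩, rfl⟩
      exact ⟨he, v, hv, w, hw, rfl⟩
  rw [h1, Set.InjOn.ncard_image, Set.ncard_coe_finset, Finset.card_filter, Nat.cast_sum,
    Fintype.sum_prod_type]
  · unfold bdr E adj
    refine Finset.sum_congr rfl fun v _ => Finset.sum_congr rfl fun w _ => ?_
    by_cases h2 : v ∈ A <;> by_cases h3 : w ∈ A <;> by_cases h4 : Γ.Adj v w <;>
      simp [h2, h3, h4]
  · rintro ⟨v, w⟩ hp ⟨v', w'⟩ hp' he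
    simp only [Finset.coe_filter, Finset.mem_univ, true_and, Set.mem_ofPred_eq] at hp hp'
    rcases Sym2.eq_iff.1 he with ⟨h2, h3⟩ | ⟨h2, h3⟩
    · change v = v' at h2
      change w = w' at h3
      rw [h2, h3]
    · exfalso
      change v = w' at h2
      exact hp'.2.1 (h2 ▸ hp.1)

open Classical in
theorem ncard_class (A : Set V) : (A.ncard : ℝ) = sz (fun v => if v ∈ A then 1 else 0) := by
  rw [Set.ncard_eq_toFinset_card', ← Set.filter_mem_univ_eq_toFinset, Finset.card_filter]
  simp [sz]

theorem ind_eq {n : ℕ} (f : V → Fin n) (i : Fin n) [DecidablePred (· ∈ f ⁻¹' {i})] :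
    (fun v => if v ∈ f ⁻¹' {i} then (1 : ℝ) else 0) = ind f i := by
  ext v
  unfold ind
  simp only [Set.mem_preimage, Set.mem_singleton_iff]

theorem cost_eq {n : ℕ} (f : V → Fin n) :
    cost Γ f = ⨆ i, bdr Γ (ind f i) / sz (ind f i) := by
  classical
  unfold cost
  congr 1
  ext i
  rw [ncard_boundary, ncard_class, ind_eq]

theorem sz_pos {n : ℕ} {f : V → Fin n} {i : Fin n} {v : V} (h : f v = i) : 0 < sz (ind f i) := by
  refine Finset.sum_pos' (fun v _ => isInd_nonneg (ind_isInd f i) v) ⟨v, Finset.mem_univ v, ?_⟩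
  unfold ind
  rw [if_pos h]
  norm_num

theorem good_of_cost {n : ℕ} {f : V → Fin n} (hf : Function.Surjective f) :
    Good Γ (cost Γ f) f := by
  intro i
  obtain ⟨v, hv⟩ := hf i
  have h1 := sz_pos hv
  refine ⟨h1, ?_⟩
  rw [← div_le_iff₀ h1, cost_eq]
  exact le_ciSup (f := fun i => bdr Γ (ind f i) / sz (ind f i)) (Set.finite_range _).bddAbove i

theorem isoper_le {n : ℕ} {f : V → Fin n} (hf : Function.Surjective f) :
    isoper Γ n ≤ cost Γ f :=
  ciInf_le (f := fun f : {f : V → Fin n // Function.Surjective f} => cost Γ f.1)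
    (Set.finite_range _).bddBelow ⟨f, hf⟩

theorem cost_nonneg {n : ℕ} (f : V → Fin n) : 0 ≤ cost Γ f := by
  rw [cost_eq]
  exact Real.iSup_nonneg fun i => div_nonneg (bdr_nonneg Γ (ind_isInd f i))
    (sz_nonneg (isInd_nonneg (ind_isInd f i)))

theorem ind_pos {n : ℕ} {f : V → Fin n} {i : Fin n} {v : V} (h : f v = i) : ind f i v = 1 :=
  if_pos h

theorem ind_neg {n : ℕ} {f : V → Fin n} {i : Fin n} {v : V} (h : f v ≠ i) : ind f i v = 0 :=
  if_neg h

theorem F1_of_isoper {n : ℕ} {h : ℝ} (hH : h < isoper Γ (n + 1)) (h0 : 0 ≤ h) (f : V → Fin n)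
    (hf : Good Γ h f) (i : Fin n) (χ : V → ℝ) (hχ : IsInd χ) :
    isoper Γ (n + 1) * sz (fun v => ind f i v * χ v) ≤ bdr Γ (fun v => ind f i v * χ v) ∨
    isoper Γ (n + 1) * sz (fun v => ind f i v * (1 - χ v))
      ≤ bdr Γ (fun v => ind f i v * (1 - χ v)) := by
  classical
  by_cases hT : ∃ v, f v = i ∧ χ v = 1
  · by_cases hR : ∃ v, f v = i ∧ χ v = 0
    · let f' : V → Fin (n + 1) := fun v => if f v = i ∧ χ v = 1 then Fin.last n else (f v).castSucc
      have hf1 : ∀ v, f v = i ∧ χ v = 1 → f' v = Fin.last n := fun v h => if_pos h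
      have hf2 : ∀ v, ¬ (f v = i ∧ χ v = 1) → f' v = (f v).castSucc := fun v h => if_neg h
      have hlast : ind f' (Fin.last n) = fun v => ind f i v * χ v := by
        ext v
        by_cases h1 : f v = i ∧ χ v = 1
        · rw [ind_pos (hf1 v h1), ind_pos h1.1, h1.2, mul_one]
        · rw [ind_neg (by rw [hf2 v h1]; exact (Fin.castSucc_lt_last _).ne)]
          by_cases h2 : f v = i
          · rcases hχ v with h3 | h3
            · rw [h3, mul_zero]
            · exact absurd ⟨h2, h3⟩ h1
          · rw [ind_neg h2, zero_mul]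
      have hi : ind f' i.castSucc = fun v => ind f i v * (1 - χ v) := by
        ext v
        by_cases h1 : f v = i ∧ χ v = 1
        · rw [ind_neg (by rw [hf1 v h1]; exact (Fin.castSucc_lt_last _).ne'), h1.2]; ring
        · by_cases h2 : f v = i
          · rcases hχ v with h3 | h3
            · rw [ind_pos (by rw [hf2 v h1, h2]), ind_pos h2, h3]; ring
            · exact absurd ⟨h2, h3⟩ h1
          · rw [ind_neg (by rw [hf2 v h1]; exact fun h => h2 (Fin.castSucc_injective _ h)),
              ind_neg h2, zero_mul]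
      have hj : ∀ j, j ≠ i → ind f' j.castSucc = ind f j := by
        intro j hji
        ext v
        by_cases h1 : f v = i ∧ χ v = 1
        · rw [ind_neg (by rw [hf1 v h1]; exact (Fin.castSucc_lt_last _).ne'),
            ind_neg fun h => hji (h.symm.trans h1.1)]
        · by_cases h2 : f v = j
          · rw [ind_pos (by rw [hf2 v h1, h2]), ind_pos h2]
          · rw [ind_neg (by rw [hf2 v h1]; exact fun h => h2 (Fin.castSucc_injective _ h)),
              ind_neg h2]
      have hsurj : Function.Surjective f' := by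
        intro k
        rcases Fin.eq_castSucc_or_eq_last k with ⟨j, rfl⟩ | rfl
        · by_cases hji : j = i
          · subst hji
            obtain ⟨v, hv1, hv2⟩ := hR
            exact ⟨v, by rw [hf2 v (fun h => by rw [hv2] at h; exact zero_ne_one h.2), hv1]⟩
          · obtain ⟨v, hv⟩ : ∃ v, f v = j := by
              by_contra hcon
              push Not at hcon
              have h1 := (hf j).1
              have h2 : sz (ind f j) = 0 := Finset.sum_eq_zero fun v _ => by
                unfold ind; rw [if_neg (hcon v)]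
              linarith
            exact ⟨v, by rw [hf2 v (fun h => hji (hv.symm.trans h.1)), hv]⟩
        · obtain ⟨v, hv⟩ := hT
          exact ⟨v, hf1 v hv⟩
      have h1 := isoper_le (Γ := Γ) hsurj
      obtain ⟨k, hk⟩ := exists_eq_ciSup_of_finite
        (f := fun k => bdr Γ (ind f' k) / sz (ind f' k))
      rw [cost_eq, ← hk] at h1
      obtain ⟨v, hv⟩ := hsurj k
      rw [le_div_iff₀ (sz_pos hv)] at h1
      rcases Fin.eq_castSucc_or_eq_last k with ⟨j, rfl⟩ | rfl
      · by_cases hji : j = i
        · subst hji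
          rw [hi] at h1
          exact Or.inr h1
        · exfalso
          rw [hj j hji] at h1
          have h2 := (hf j).1
          have h3 := (hf j).2
          nlinarith
      · rw [hlast] at h1
        exact Or.inl h1
    · right
      have h1 : (fun v => ind f i v * (1 - χ v)) = fun _ => 0 := by
        ext v
        unfold ind
        by_cases h1 : f v = i
        · rcases hχ v with h2 | h2
          · exact absurd ⟨v, h1, h2⟩ hR
          · rw [h2]; ring
        · rw [if_neg h1]; ring
      rw [h1]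
      simp [sz, bdr, E]
  · left
    have h1 : (fun v => ind f i v * χ v) = fun _ => 0 := by
      ext v
      unfold ind
      by_cases h1 : f v = i
      · rcases hχ v with h2 | h2
        · rw [h2]; ring
        · exact absurd ⟨v, h1, h2⟩ hT
      · rw [if_neg h1]; ring
    rw [h1]
    simp [sz, bdr, E]

end transfer

/-- **Main theorem.** Let `n ≥ 2` and let `Γ` be a finite vertex-transitive graph with at least
`n + 1` vertices and `h_{n+1} > 2 (n + 1) h_n`. Then some realizer of `h_n` is a system of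
imprimitivity of size `n` for the automorphism group. -/
theorem main (n : ℕ) (hn : 2 ≤ n) (V : Type) [Finite V] (Γ : SimpleGraph V)
    (hV : n + 1 ≤ Nat.card V) (ht : ∀ v w : V, ∃ g : Γ ≃g Γ, g v = w)
    (hH : 2 * ((n : ℝ) + 1) * isoper Γ n < isoper Γ (n + 1)) :
    ∃ F : V → Fin n, Function.Surjective F ∧ cost Γ F = isoper Γ n ∧
      ∀ (g : Γ ≃g Γ) (i : Fin n), ∃ j : Fin n, g '' (F ⁻¹' {i}) = F ⁻¹' {j} := by
  classical
  have := Fintype.ofFinite V
  have hfin : Finite (Γ ≃g Γ) := Finite.of_injective (fun g : Γ ≃g Γ => g.toEquiv)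
    RelIso.toEquiv_injective
  have := Fintype.ofFinite (Γ ≃g Γ)
  have : Nonempty (Fin n) := ⟨⟨0, by omega⟩⟩
  have : Nonempty {f : V → Fin n // Function.Surjective f} := by
    have h1 : Fintype.card (Fin n) ≤ Fintype.card V := by
      rw [Fintype.card_fin, ← Nat.card_eq_fintype_card]; omega
    obtain ⟨e⟩ := Function.Embedding.nonempty_of_card_le h1
    exact ⟨⟨Function.invFun e, Function.invFun_surjective e.injective⟩⟩
  obtain ⟨⟨f, hf⟩, hfh⟩ := exists_eq_ciInf_of_finite
    (f := fun f : {f : V → Fin n // Function.Surjective f} => cost Γ f.1)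
  change cost Γ f = isoper Γ n at hfh
  have hgood : Good Γ (isoper Γ n) f := by rw [← hfh]; exact good_of_cost hf
  have h0 : 0 ≤ isoper Γ n := by rw [← hfh]; exact cost_nonneg f
  have hlt : isoper Γ n < isoper Γ (n + 1) := by
    have : (2 : ℝ) ≤ n := by exact_mod_cast hn
    nlinarith
  have c : Ctx Γ n (isoper Γ n) (isoper Γ (n + 1)) :=
    ⟨hn, h0, hH, fun f hf i χ hχ => F1_of_isoper hlt h0 f hf i χ hχ⟩
  obtain ⟨F, hF1, hF2, hF3⟩ := core (G := Γ ≃g Γ) c (fun g v w => g.map_rel_iff) ht hgood
  refine ⟨F, hF1, le_antisymm ?_ (isoper_le hF1), fun g i => ?_⟩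
  · rw [cost_eq]
    refine ciSup_le fun i => ?_
    obtain ⟨v, hv⟩ := hF1 i
    rw [div_le_iff₀ (sz_pos hv)]
    exact hF2 i
  · obtain ⟨τ, hτ⟩ := hF3 g
    refine ⟨τ i, ?_⟩
    ext w
    simp only [Set.mem_image, Set.mem_preimage, Set.mem_singleton_iff]
    constructor
    · rintro ⟨v, hv, rfl⟩
      rw [← hv]
      exact hτ v
    · intro hw
      refine ⟨g.symm w, ?_, g.apply_symm_apply w⟩
      have h1 := hτ (g.symm w)
      change F (g (g.symm w)) = τ (F (g.symm w)) at h1
      rw [g.apply_symm_apply, hw] at h1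
      exact τ.injective h1.symm

/-- **Result.** For every `n ≥ 2`: every finite vertex-transitive graph with `|V| ≥ n + 1` and
`h_{n+1} > 2 (n + 1) h_n` has a realizer of `h_n` that is a system of imprimitivity of size `n`
for the automorphism group; so a connected vertex-transitive graph as asked for does not exist. -/
theorem result (n : ℕ) (hn : 2 ≤ n) :
    (∀ (V : Type) [Finite V] (Γ : SimpleGraph V), n + 1 ≤ Nat.card V →
      (∀ v w : V, ∃ g : Γ ≃g Γ, g v = w) →
      2 * ((n : ℝ) + 1) * isoper Γ n < isoper Γ (n + 1) →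
      ∃ F : V → Fin n, Function.Surjective F ∧ cost Γ F = isoper Γ n ∧
        ∀ (g : Γ ≃g Γ) (i : Fin n), ∃ j : Fin n, g '' (F ⁻¹' {i}) = F ⁻¹' {j}) ∧
    ¬ ∃ (V : Type) (_ : Finite V) (Γ : SimpleGraph V), Γ.Connected ∧ n + 1 ≤ Nat.card V ∧
      (∀ v w : V, ∃ g : Γ ≃g Γ, g v = w) ∧
      2 * ((n : ℝ) + 1) * isoper Γ n < isoper Γ (n + 1) ∧
      ∀ F : V → Fin n, Function.Surjective F → cost Γ F = isoper Γ n →
        ¬ ∀ (g : Γ ≃g Γ) (i : Fin n), ∃ j : Fin n, g '' (F ⁻¹' {i}) = F ⁻¹' {j} := by
  refine ⟨fun V _ Γ => main n hn V Γ, ?_⟩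
  rintro ⟨V, hfin, Γ, -, hV, ht, hH, hno⟩
  obtain ⟨F, h1, h2, h3⟩ := main n hn V Γ hV ht hH
  exact hno F h1 h2 h3

end Pool.Agent.Results.MP_8474a0_co.BlockRealizer
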